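import Mathlib
import Pool.Prelude.Def_F_c31e40fa
import Pool.Agent.N245.BG.Main
import Pool.Agent.Y736.RN.M

set_option autoImplicit false

/-!
# Infinitely renormalizable parameters with bounded geometry

Let `M` be the Mandelbrot set and `IR` the set of the infinitely renormalizable parameters. The
condition `Geometry C c p` says that `f_c^p` maps a neighbourhood of radius `r` of the points
`f_c^(np) (0)` of the critical orbit into a set of diameter at most `C r`. For a renormalization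
`f_c^p : U → V` it holds if the diameter of `V` is at most `C` times the distance of the small
postcritical set to the boundary of `U` (a priori, or complex, bounds).

* If `c ∈ IR` and `Geometry (e^(ε p)) c p` holds for all `ε > 0` and infinitely many `p`, then the
  superattracting parameters are rare near `c` (`Remote`): this is the property which all parameters
  of `IR` have outside a set of Hausdorff dimension zero.
* If `c ∈ IR` and `Geometry C c p` holds for times `1 = p_0 | p_1 | p_2 | ...` with bounded quotients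
  (bounded type), then the harmonic measure and Green's function of the disc `B(c, r)` and the
  proportion of the superattracting parameters of period dividing `n` in it are at most
  `exp (-r^(-γ))` with `γ > 0`; the superattracting parameters of period dividing `n` have distances
  at least `n^(-N) / N`, and the derivatives of the iterates along the critical orbit and with
  respect to the parameter grow at most like `N n^N`.

By helper245 and the authors of the parts: helpers 434, 377, 291, 186, 591, 106.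
-/

open Filter Topology Set Metric MeasureTheory Complex N62a1eb23

namespace Pool.Agent.Results.MP_b511e9_an.BoundedGeometry

open Pool.Agent.H713R2

/-- The map `z ↦ z ^ 2 + c`. -/
def f (c : ℂ) : ℂ → ℂ := fun z => z ^ 2 + c

/-- The point `f_c^n (0)` of the critical orbit. -/
def P (n : ℕ) (c : ℂ) : ℂ := (f c)^[n] 0

/-- The superattracting parameters of period dividing `n`: the centres of the hyperbolic components
of these periods. -/
def centres (n : ℕ) : Set ℂ := {a | P n a = 0}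

/-- The perturbation `(id + t Φ) ∘ f_c` of `f_c`. For `Φ = 1` it is `f_(c + t)`. -/
def g (c : ℂ) (Φ : ℂ → ℂ) (t : ℂ) : ℂ → ℂ := fun z => f c z + t * Φ (f c z)

/-- `h` is proper of degree at most `2` from the bounded open set `U` onto a set which contains the
closure of `U`. Polynomial-like maps of degree `2` have this property. -/
def PolynomialLike (h : ℂ → ℂ) (U : Set ℂ) : Prop :=
  IsOpen U ∧ Bornology.IsBounded U ∧ closure U ⊆ h '' U ∧
    (∀ K ⊆ h '' U, IsCompact K → IsCompact {z | z ∈ U ∧ h z ∈ K}) ∧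
    ∀ w ∈ h '' U, {z | z ∈ U ∧ h z = w}.encard ≤ 2

/-- `z ↦ z ^ 2 + c` is renormalizable of period `p` (for `p = 1` this is so for all `c` in the
Mandelbrot set). -/
def Renormalizable (c : ℂ) (p : ℕ) : Prop :=
  ∃ U : Set ℂ, PolynomialLike ((f c)^[p]) U ∧ (0 : ℂ) ∈ U ∧
    (∀ n : ℕ, 1 ≤ n → (f c)^[n * p] 0 ∈ U) ∧ ∀ z ∈ U, deriv ((f c)^[p]) z = 0 → z = 0

/-- The infinitely renormalizable parameters. -/
def IR : Set ℂ := {c | {p : ℕ | Renormalizable c p}.Infinite}

/-- The angles `t ∈ (0, 2π]` of the external rays landing at distance less than `r` from `c₀`. -/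
def angles (ψ : ℂ → ℂ) (c₀ : ℂ) (r : ℝ) : Set ℝ :=
  {t | t ∈ Ioc 0 (2 * Real.pi) ∧ ∃ ζ ∈ ball c₀ r,
    Tendsto (fun ρ : ℝ => ψ (ρ * exp (t * I))) (𝓝[>] 1) (𝓝 ζ)}

/-- The harmonic measure (from infinity) of the disc of radius `r`, up to the factor `2π`. -/
noncomputable def harm (ψ : ℂ → ℂ) (c₀ : ℂ) (r : ℝ) : ℝ := (volume (angles ψ c₀ r)).toReal

/-- The maximum over a disc of Green's function of the complement of the Mandelbrot set: Green's
function is `log ‖w‖` at the point `ψ w`. -/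
noncomputable def green (ψ : ℂ → ℂ) (c₀ : ℂ) (r : ℝ) : ℝ :=
  sSup {x | ∃ w : ℂ, 1 < ‖w‖ ∧ ‖ψ w - c₀‖ ≤ r ∧ Real.log ‖w‖ = x}

/-- The conditions at `c` for the exponents less than `σ`. -/
structure Exponents (K : ℝ) (ψ : ℂ → ℂ) (σ : ℝ) (c : ℂ) : Prop where
  /-- Small discs of radius `r` about `c` contain at most `2 ^ n * r ^ κ` superattracting parameters
  of period dividing `n`, for all `n` at the same time. -/
  few : ∀ κ : ℝ, 0 < κ → κ < σ → ∀ᶠ r : ℝ in 𝓝[>] 0, ∀ n : ℕ, 1 ≤ n →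
    ((centres n ∩ ball c r).ncard : ℝ) ≤ (2 : ℝ) ^ n * r ^ κ
  /-- `c` is not superattracting and the averages of `|a - c| ^ (-κ)` over the superattracting
  parameters `a` of period dividing `n` are bounded. -/
  moments : ∀ κ : ℝ, 0 < κ → κ < σ → ∃ C : ℝ, ∀ n : ℕ, 1 ≤ n → c ∉ centres n ∧
    ∑ᶠ a ∈ centres n, dist a c ^ (-κ) ≤ C * (2 : ℝ) ^ n
  /-- The harmonic measure and Green's function of small discs are small. -/
  slim : ∀ κ : ℝ, 0 < κ → κ < σ → ∀ᶠ r : ℝ in 𝓝[>] 0, harm ψ c r < r ^ κ ∧ green ψ c r < r ^ κ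
  /-- The superattracting parameters of period dividing `n` are not near. -/
  far : ∀ X : ℝ, Real.log 2 / σ < X → ∀ᶠ n : ℕ in atTop,
    ∀ a ∈ centres n, Real.exp (-(X * n)) < dist a c
  /-- Every holomorphic perturbation moves the `n`-th point of the critical orbit with a speed
  which is at most `exp (X n)` times its size, up to a logarithm and a constant. -/
  slow : ∀ X : ℝ, Real.log 2 / σ < X → ∀ᶠ n : ℕ in atTop,
    ∀ (Φ : ℂ → ℂ) (M : ℝ), DifferentiableOn ℂ Φ (ball 0 4) → (∀ x ∈ ball (0 : ℂ) 4, ‖Φ x‖ ≤ M) →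
      DifferentiableAt ℂ (fun t : ℂ => (g c Φ t)^[n] 0) 0 ∧
      ‖deriv (fun t : ℂ => (g c Φ t)^[n] 0) 0‖ ≤
        K * M * Real.exp (X * n) * (‖P n c‖ * (1 + |Real.log ‖P n c‖|))
  /-- The derivatives of the critical orbit with respect to the parameter grow slowly. -/
  growth : ∀ X : ℝ, Real.log 2 / σ < X → ∀ᶠ n : ℕ in atTop, ‖deriv (P n) c‖ < Real.exp (X * n)

/-- The parameters which are remote: the conditions hold for all exponents. -/
def Remote (K : ℝ) (ψ : ℂ → ℂ) : Set ℂ := {c | ∀ σ : ℝ, 0 < σ → Exponents K ψ σ c}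

/-- Bounded geometry at the time `p` with the constant `C`: `f_c^p` maps a neighbourhood `U` of the
points `f_c^(n p) (0)`, which contains the discs of radius `r` about them, into a set of diameter at
most `C r`. -/
def Geometry (C : ℝ) (c : ℂ) (p : ℕ) : Prop :=
  ∃ (U : Set ℂ) (r : ℝ), 0 < r ∧ (∀ n : ℕ, ball (P (n * p) c) r ⊆ U) ∧
    ∀ z ∈ U, ∀ z' ∈ U, ‖(f c)^[p] z - (f c)^[p] z'‖ ≤ C * r

/-- Bounded geometry at times `1 = p_0 | p_1 | p_2 | ...` with bounded quotients. -/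
structure BoundedType (C : ℝ) (B : ℕ) (c : ℂ) (p : ℕ → ℕ) : Prop where
  one : p 0 = 1
  dvd : ∀ k, p k ∣ p (k + 1)
  lt : ∀ k, p k < p (k + 1)
  le : ∀ k, p (k + 1) ≤ B * p k
  geo : ∀ k, Geometry C c (p k)

theorem centres_eq (N : ℕ) :
    centres (N + 1) = ((Pool.Agent.R240.LL.ZZ 2 N : Finset ℂ) : Set ℂ) := by
  ext a
  rw [Finset.mem_coe, Pool.Agent.R240.LL.mem_ZZ le_rfl]
  rfl

theorem inter_eq (n : ℕ) (c : ℂ) (r : ℝ) :
    centres n ∩ ball c r = Pool.Agent.R240.Sparse.cen 2 n c r := by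
  ext a
  exact and_comm

/-- The conditions in the form used in the library. -/
theorem exponents_of {ψ : ℂ → ℂ} {c : ℂ} (hc : c ∈ multibrotSet 2) {σ : ℝ}
    (h : Pool.Agent.N228.DQ.Ord 2 ψ σ c) : Exponents Pool.Agent.R240.Res.KR ψ σ c := by
  refine ⟨?_, ?_, ?_, ?_, ?_, ?_⟩
  · intro κ hκ0 hκ
    filter_upwards [h.few κ hκ0 hκ] with r h3 n hn
    rw [inter_eq]
    exact h3 n hn
  · intro κ hκ0 hκ
    obtain ⟨h2, C, hC⟩ := h.mom κ hκ0 hκ
    refine ⟨C, fun n hn => ?_⟩
    obtain ⟨N, rfl⟩ : ∃ N, n = N + 1 := ⟨n - 1, by omega⟩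
    refine ⟨h2 (N + 1) hn, ?_⟩
    rw [centres_eq, finsum_mem_coe_finset]
    simpa only [dist_eq_norm, Nat.cast_ofNat] using hC N
  · intro κ hκ0 hκ
    exact h.slim κ hκ0 hκ
  · intro X hX
    filter_upwards [h.far X hX] with n hn a ha
    rw [dist_eq_norm]
    exact hn.1 a ha
  · intro X hX
    filter_upwards [h.far X hX] with n hn Φ M hΦ hM
    have h2 : HasDerivAt (fun t : ℂ => (g c Φ t)^[n] 0) (Pool.Agent.R240.Univ.vel 2 c Φ n) 0 :=
      Pool.Agent.R240.Univ.vel_deriv le_rfl hc hΦ n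
    refine ⟨h2.differentiableAt, ?_⟩
    rw [h2.deriv]
    exact hn.2 Φ M hΦ hM
  · intro X hX
    exact h.der X hX

open Pool.Agent.Y736.HL (LL LL_nonneg LL_self LL_succ)

/-- The critical point is not periodic. -/
theorem ne_of_IR {c : ℂ} (hc : c ∈ IR) (m : ℕ) (hm : 1 ≤ m) :
    Pool.Agent.H712R2.P 2 m c ≠ 0 := by
  obtain ⟨p, ⟨U, hU, h0, -, -⟩, hp⟩ := Set.Infinite.exists_gt hc m
  exact Pool.Agent.N186.BG.ne c p m U hU.1 h0 hU.2.2.2.2 hm hp

theorem mem_of_IR {c : ℂ} (hc : c ∈ IR) : c ∈ multibrotSet 2 := by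
  obtain ⟨p, hp, hp0⟩ := Set.Infinite.exists_gt hc 0
  have h1 : Pool.Agent.R240.Res.RenC 2 c p := hp
  exact Pool.Agent.Y736.RN.ren_mem hp0 h1.ren

/-- The derivative with respect to the parameter. -/
theorem deriv_P_le (c : ℂ) (n : ℕ) :
    ‖deriv (P n) c‖ ≤ ∑ j ∈ Finset.range n, LL c (j + 1) n := by
  have hd : ∀ n, Differentiable ℂ (P n) := fun n => Pool.Agent.H713R2.differentiable_P 2 n
  induction n with
  | zero =>
    have h1 : P 0 = fun _ : ℂ => (0 : ℂ) := by
      funext c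
      rfl
    rw [h1]
    simp
  | succ n ih =>
    have h1 : P (n + 1) = fun c => P n c ^ 2 + c := by
      funext c
      show (f c)^[n + 1] 0 = _
      rw [Function.iterate_succ_apply']
      rfl
    have h2 : HasDerivAt (P (n + 1)) (2 * P n c * deriv (P n) c + 1) c := by
      rw [h1]
      have h3 := ((hd n c).hasDerivAt.pow 2).add (hasDerivAt_id c)
      have e : 2 * P n c * deriv (P n) c + 1 = ((2 : ℕ) : ℂ) * P n c ^ (2 - 1) * deriv (P n) c + 1 := by
        norm_num
      rw [e]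
      exact h3
    rw [h2.deriv, Finset.sum_range_succ, LL_self]
    have h3 : ‖2 * P n c * deriv (P n) c + 1‖ ≤ ‖2 * P n c‖ * ‖deriv (P n) c‖ + 1 := by
      refine (norm_add_le _ _).trans ?_
      rw [norm_mul, norm_one]
    refine h3.trans ?_
    have h4 : ∑ j ∈ Finset.range n, LL c (j + 1) (n + 1) =
        ‖2 * P n c‖ * ∑ j ∈ Finset.range n, LL c (j + 1) n := by
      rw [Finset.mul_sum]
      refine Finset.sum_congr rfl fun j hj => ?_
      rw [LL_succ c (by have := Finset.mem_range.1 hj; omega), mul_comm]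
      rfl
    rw [h4]
    gcongr

/-- **Infinitely renormalizable parameters with bounded geometry.** -/
theorem result :
    (∃ ψ : ℂ → ℂ, IsExteriorMap (multibrotSet 2) ψ) ∧
    ∃ K : ℝ, 0 < K ∧ ∀ ψ : ℂ → ℂ, IsExteriorMap (multibrotSet 2) ψ →
      -- (1) subexponential geometry
      (∀ c ∈ IR, (∀ ε : ℝ, 0 < ε → {p : ℕ | Geometry (Real.exp (ε * p)) c p}.Infinite) →
        c ∈ Remote K ψ) ∧
      -- (2) bounded type and bounded geometry
      ∀ c ∈ IR, ∀ (C : ℝ) (B : ℕ) (p : ℕ → ℕ), BoundedType C B c p →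
        (∃ γ : ℝ, 0 < γ ∧ ∀ᶠ r : ℝ in 𝓝[>] 0,
          harm ψ c r < Real.exp (-(r ^ (-γ))) ∧ green ψ c r < Real.exp (-(r ^ (-γ))) ∧
          ∀ n : ℕ, 1 ≤ n →
            ((centres n ∩ ball c r).ncard : ℝ) ≤ (2 : ℝ) ^ n * Real.exp (-(r ^ (-γ)))) ∧
        ∃ N : ℕ, (∀ n : ℕ, 1 ≤ n → ∀ a ∈ centres n, 1 ≤ N * (n : ℝ) ^ N * dist a c) ∧
          (∀ m n : ℕ, ‖deriv ((f c)^[n]) (P m c)‖ ≤ N * ((n : ℝ) + 1) ^ N) ∧
          ∀ n : ℕ, ‖deriv (P n) c‖ ≤ N * ((n : ℝ) + 1) ^ N := by
  obtain ⟨β₀, hβ₀⟩ := exists_beta (d := 2) le_rfl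
  refine ⟨⟨_, exteriorMap_of_beta hβ₀⟩, Pool.Agent.R240.Res.KR, Pool.Agent.R240.Res.KR_pos, ?_⟩
  intro ψ hψ
  refine ⟨?_, ?_⟩
  · intro c hc hgeo σ hσ
    have hcM := mem_of_IR hc
    refine exponents_of hcM (Pool.Agent.N245.BG.ord_all hψ hcM (ne_of_IR hc) ?_ ?_ hσ)
    · exact Pool.Agent.N106.BGSub.sub c hcM hgeo
    · exact Pool.Agent.Y736.RN.not_big_of_weak le_rfl hψ hcM hgeo
  · intro c hc C B p hp
    have hcM := mem_of_IR hc
    have hne := ne_of_IR hc
    obtain ⟨K, β, hK, hLL⟩ := Pool.Agent.N434.BG.poly c C B p hcM hp.one hp.dvd hp.lt hp.le hp.geo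
    obtain ⟨δ, hδ, hfar⟩ := Pool.Agent.N245.BG.far_poly hne hK hLL
    have hgr : ∀ᶠ r : ℝ in 𝓝[>] 0, ∀ w : ℂ, 1 < ‖w‖ → ‖ψ w - c‖ ≤ 2 * r →
        Real.log ‖w‖ ≤ Real.exp (-(2 * r ^ (-(1 / (2 * (β : ℝ) + 4))))) :=
      (Pool.Agent.N591.BG.green c K β hcM hK hLL).mono fun r h => h ψ hψ
    refine ⟨⟨1 / (4 * (β : ℝ) + 8), by positivity, ?_⟩, ?_⟩
    · have hγ : 0 < 1 / (4 * (β : ℝ) + 8) := by positivity
      have hγs : 1 / (4 * (β : ℝ) + 8) < 1 / (2 * (β : ℝ) + 4) := by
        apply one_div_lt_one_div_of_lt (by positivity)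
        have : (0 : ℝ) ≤ β := Nat.cast_nonneg _
        linarith
      have hγN : 1 / (4 * (β : ℝ) + 8) < 1 / ((2 * β + 2 : ℕ) : ℝ) := by
        apply one_div_lt_one_div_of_lt (by positivity)
        push_cast
        have : (0 : ℝ) ≤ β := Nat.cast_nonneg _
        linarith
      filter_upwards [Pool.Agent.N245.BG.slim_exp hψ hcM hγ hγs hgr,
        Pool.Agent.N245.BG.few_exp hψ hcM hne hγ hγs (by omega : 1 ≤ 2 * β + 2) hγN hδ hfar hgr]
        with r h1 h2
      refine ⟨h1.1, h1.2, fun n hn => ?_⟩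
      rw [inter_eq]
      exact h2 n hn
    · -- one constant
      obtain ⟨N₁, hN₁⟩ := exists_nat_ge (max K (1 / δ))
      have hKN : K ≤ N₁ := (le_max_left _ _).trans hN₁
      have hδN : 1 / δ ≤ N₁ := (le_max_right _ _).trans hN₁
      have hN0 : (1 : ℝ) ≤ N₁ := hK.trans hKN
      refine ⟨N₁ + 2 * β + 2, ?_, ?_, ?_⟩
      · intro n hn a ha
        have hn1 : (1 : ℝ) ≤ n := by exact_mod_cast hn
        have h1 := hfar n hn a ha
        rw [div_le_iff₀ hδ] at hδN
        rw [dist_eq_norm]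
        have h2 : (n : ℝ) ^ (2 * β + 2) ≤ (n : ℝ) ^ (N₁ + 2 * β + 2) :=
          pow_le_pow_right₀ hn1 (by omega)
        have h3 : (N₁ : ℝ) ≤ ((N₁ + 2 * β + 2 : ℕ) : ℝ) := by exact_mod_cast (by omega)
        calc (1 : ℝ) ≤ N₁ * δ := hδN
          _ ≤ N₁ * ((n : ℝ) ^ (2 * β + 2) * ‖a - c‖) := by gcongr
          _ ≤ ((N₁ + 2 * β + 2 : ℕ) : ℝ) * ((n : ℝ) ^ (N₁ + 2 * β + 2) * ‖a - c‖) := by gcongr
          _ = _ := by ring
      · intro m n
        have h1 : ‖deriv ((f c)^[n]) (P m c)‖ = LL c m (m + n) :=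
          Pool.Agent.Y736.HL.norm_deriv_iter c m n
        rw [h1]
        refine (hLL m (m + n) (by omega)).trans ?_
        have h2 : ((m + n - m + 1 : ℕ) : ℝ) = (n : ℝ) + 1 := by
          rw [Nat.add_sub_cancel_left]
          push_cast
          ring
        rw [h2]
        have hn1 : (1 : ℝ) ≤ (n : ℝ) + 1 := by
          have : (0 : ℝ) ≤ n := Nat.cast_nonneg _
          linarith
        have h3 : (N₁ : ℝ) ≤ ((N₁ + 2 * β + 2 : ℕ) : ℝ) := by exact_mod_cast (by omega)
        have h4 : ((n : ℝ) + 1) ^ β ≤ ((n : ℝ) + 1) ^ (N₁ + 2 * β + 2) :=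
          pow_le_pow_right₀ hn1 (by omega)
        have h5 : K ≤ ((N₁ + 2 * β + 2 : ℕ) : ℝ) := hKN.trans h3
        gcongr
      · intro n
        refine (deriv_P_le c n).trans ?_
        have hn1 : (1 : ℝ) ≤ (n : ℝ) + 1 := by
          have : (0 : ℝ) ≤ n := Nat.cast_nonneg _
          linarith
        have h3 : (N₁ : ℝ) ≤ ((N₁ + 2 * β + 2 : ℕ) : ℝ) := by exact_mod_cast (by omega)
        have h5 : K ≤ ((N₁ + 2 * β + 2 : ℕ) : ℝ) := hKN.trans h3
        calc ∑ j ∈ Finset.range n, LL c (j + 1) n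
            ≤ ∑ j ∈ Finset.range n, K * ((n : ℝ) + 1) ^ β := by
              refine Finset.sum_le_sum fun j hj => ?_
              have hjn := Finset.mem_range.1 hj
              refine (hLL (j + 1) n (by omega)).trans ?_
              have h6 : ((n - (j + 1) + 1 : ℕ) : ℝ) ≤ (n : ℝ) + 1 := by
                have h7 : n - (j + 1) + 1 ≤ n + 1 := by omega
                calc ((n - (j + 1) + 1 : ℕ) : ℝ) ≤ ((n + 1 : ℕ) : ℝ) := by exact_mod_cast h7
                  _ = (n : ℝ) + 1 := by push_cast; ring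
              gcongr
          _ = K * ((n : ℝ) * ((n : ℝ) + 1) ^ β) := by
              rw [Finset.sum_const, Finset.card_range, nsmul_eq_mul]
              ring
          _ ≤ K * (((n : ℝ) + 1) * ((n : ℝ) + 1) ^ β) := by
              gcongr
              linarith
          _ = K * ((n : ℝ) + 1) ^ (β + 1) := by ring
          _ ≤ ((N₁ + 2 * β + 2 : ℕ) : ℝ) * ((n : ℝ) + 1) ^ (N₁ + 2 * β + 2) := by
              have h4 : ((n : ℝ) + 1) ^ (β + 1) ≤ ((n : ℝ) + 1) ^ (N₁ + 2 * β + 2) :=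
                pow_le_pow_right₀ hn1 (by omega)
              gcongr

end Pool.Agent.Results.MP_b511e9_an.BoundedGeometry
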