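import Mathlib
import Pool.Prelude.Def_F_c31e40fa
import Pool.Agent.N228.DQ.Good
import Pool.Agent.Y736.RN.M

set_option autoImplicit false

/-!
# Hyperbolic components are rare near infinitely renormalizable parameters

Let `M` be the Mandelbrot set and `IR` the set of the infinitely renormalizable parameters. A
parameter is *remote* if for all exponents `κ > 0` (and all `X > 0`)

* all small discs `B(c, r)` contain at most `2 ^ n r ^ κ` centres of hyperbolic components of period
  dividing `n`, for all `n` at the same time,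
* the averages of `|a - c| ^ (-κ)` over these centres are bounded,
* the harmonic measure and Green's function of small discs are less than `r ^ κ`,
* the centres of period dividing `n` are at distance more than `exp (-X n)`, and perturbations move
  the `n`-th point of the critical orbit with a speed less than `exp (X n)`, in proportion to its size.

All infinitely renormalizable parameters have this property, outside a set of Hausdorff dimension
zero. Consequently the two questions, whether `IR` is totally disconnected and whether it has measure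
zero, are decided at these parameters.
-/

open Filter Topology Set Metric MeasureTheory Complex N62a1eb23

namespace Pool.Agent.Results.MP_b511e9_an.RareHyperbolicity

open Pool.Agent.H713R2

/-- The map `z ↦ z ^ 2 + c`. -/
def f (c : ℂ) : ℂ → ℂ := fun z => z ^ 2 + c

/-- The point `f_c^n (0)` of the critical orbit. -/
def P (n : ℕ) (c : ℂ) : ℂ := (f c)^[n] 0

/-- The superattracting parameters of period dividing `n`: the centres of the hyperbolic components
of these periods. -/
def centres (n : ℕ) : Set ℂ := {a | P n a = 0}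

/-- The perturbation `(id + t Φ) ∘ f_c` of `f_c`. For `Φ = 1` it is `f_(c + t)`. -/
def g (c : ℂ) (Φ : ℂ → ℂ) (t : ℂ) : ℂ → ℂ := fun z => f c z + t * Φ (f c z)

/-- `h` is proper of degree at most `2` from the bounded open set `U` onto a set which contains the
closure of `U`. Polynomial-like maps of degree `2` have this property. -/
def PolynomialLike (h : ℂ → ℂ) (U : Set ℂ) : Prop :=
  IsOpen U ∧ Bornology.IsBounded U ∧ closure U ⊆ h '' U ∧
    (∀ K ⊆ h '' U, IsCompact K → IsCompact {z | z ∈ U ∧ h z ∈ K}) ∧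
    ∀ w ∈ h '' U, {z | z ∈ U ∧ h z = w}.encard ≤ 2

/-- `z ↦ z ^ 2 + c` is renormalizable of period `p` (for `p = 1` this is so for all `c` in the
Mandelbrot set). -/
def Renormalizable (c : ℂ) (p : ℕ) : Prop :=
  ∃ U : Set ℂ, PolynomialLike ((f c)^[p]) U ∧ (0 : ℂ) ∈ U ∧
    (∀ n : ℕ, 1 ≤ n → (f c)^[n * p] 0 ∈ U) ∧ ∀ z ∈ U, deriv ((f c)^[p]) z = 0 → z = 0

/-- The infinitely renormalizable parameters. -/
def IR : Set ℂ := {c | {p : ℕ | Renormalizable c p}.Infinite}

/-- The angles `t ∈ (0, 2π]` of the external rays landing at distance less than `r` from `c₀`. -/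
def angles (ψ : ℂ → ℂ) (c₀ : ℂ) (r : ℝ) : Set ℝ :=
  {t | t ∈ Ioc 0 (2 * Real.pi) ∧ ∃ ζ ∈ ball c₀ r,
    Tendsto (fun ρ : ℝ => ψ (ρ * exp (t * I))) (𝓝[>] 1) (𝓝 ζ)}

/-- The harmonic measure (from infinity) of the disc of radius `r`, up to the factor `2π`. -/
noncomputable def harm (ψ : ℂ → ℂ) (c₀ : ℂ) (r : ℝ) : ℝ := (volume (angles ψ c₀ r)).toReal

/-- The maximum over a disc of Green's function of the complement of the Mandelbrot set: Green's
function is `log ‖w‖` at the point `ψ w`. -/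
noncomputable def green (ψ : ℂ → ℂ) (c₀ : ℂ) (r : ℝ) : ℝ :=
  sSup {x | ∃ w : ℂ, 1 < ‖w‖ ∧ ‖ψ w - c₀‖ ≤ r ∧ Real.log ‖w‖ = x}

/-- The conditions at `c` for the exponents less than `σ`. -/
structure Exponents (K : ℝ) (ψ : ℂ → ℂ) (σ : ℝ) (c : ℂ) : Prop where
  /-- Small discs of radius `r` about `c` contain at most `2 ^ n * r ^ κ` superattracting parameters
  of period dividing `n`, for all `n` at the same time. -/
  few : ∀ κ : ℝ, 0 < κ → κ < σ → ∀ᶠ r : ℝ in 𝓝[>] 0, ∀ n : ℕ, 1 ≤ n →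
    ((centres n ∩ ball c r).ncard : ℝ) ≤ (2 : ℝ) ^ n * r ^ κ
  /-- `c` is not superattracting and the averages of `|a - c| ^ (-κ)` over the superattracting
  parameters `a` of period dividing `n` are bounded. -/
  moments : ∀ κ : ℝ, 0 < κ → κ < σ → ∃ C : ℝ, ∀ n : ℕ, 1 ≤ n → c ∉ centres n ∧
    ∑ᶠ a ∈ centres n, dist a c ^ (-κ) ≤ C * (2 : ℝ) ^ n
  /-- The harmonic measure and Green's function of small discs are small. -/
  slim : ∀ κ : ℝ, 0 < κ → κ < σ → ∀ᶠ r : ℝ in 𝓝[>] 0, harm ψ c r < r ^ κ ∧ green ψ c r < r ^ κ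
  /-- The superattracting parameters of period dividing `n` are not near. -/
  far : ∀ X : ℝ, Real.log 2 / σ < X → ∀ᶠ n : ℕ in atTop,
    ∀ a ∈ centres n, Real.exp (-(X * n)) < dist a c
  /-- Every holomorphic perturbation moves the `n`-th point of the critical orbit with a speed
  which is at most `exp (X n)` times its size, up to a logarithm and a constant. -/
  slow : ∀ X : ℝ, Real.log 2 / σ < X → ∀ᶠ n : ℕ in atTop,
    ∀ (Φ : ℂ → ℂ) (M : ℝ), DifferentiableOn ℂ Φ (ball 0 4) → (∀ x ∈ ball (0 : ℂ) 4, ‖Φ x‖ ≤ M) →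
      DifferentiableAt ℂ (fun t : ℂ => (g c Φ t)^[n] 0) 0 ∧
      ‖deriv (fun t : ℂ => (g c Φ t)^[n] 0) 0‖ ≤
        K * M * Real.exp (X * n) * (‖P n c‖ * (1 + |Real.log ‖P n c‖|))
  /-- The derivatives of the critical orbit with respect to the parameter grow slowly. -/
  growth : ∀ X : ℝ, Real.log 2 / σ < X → ∀ᶠ n : ℕ in atTop, ‖deriv (P n) c‖ < Real.exp (X * n)

/-- The parameters which are remote: the conditions hold for all exponents. -/
def Remote (K : ℝ) (ψ : ℂ → ℂ) : Set ℂ := {c | ∀ σ : ℝ, 0 < σ → Exponents K ψ σ c}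

theorem centres_eq (N : ℕ) :
    centres (N + 1) = ((Pool.Agent.R240.LL.ZZ 2 N : Finset ℂ) : Set ℂ) := by
  ext a
  rw [Finset.mem_coe, Pool.Agent.R240.LL.mem_ZZ le_rfl]
  rfl

theorem inter_eq (n : ℕ) (c : ℂ) (r : ℝ) :
    centres n ∩ ball c r = Pool.Agent.R240.Sparse.cen 2 n c r := by
  ext a
  exact and_comm

/-- The conditions in the form used in the library. -/
theorem exponents_of {ψ : ℂ → ℂ} {c : ℂ} (hc : c ∈ multibrotSet 2) {σ : ℝ}
    (h : Pool.Agent.N228.DQ.Ord 2 ψ σ c) : Exponents Pool.Agent.R240.Res.KR ψ σ c := by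
  refine ⟨?_, ?_, ?_, ?_, ?_, ?_⟩
  · intro κ hκ0 hκ
    filter_upwards [h.few κ hκ0 hκ] with r h3 n hn
    rw [inter_eq]
    exact h3 n hn
  · intro κ hκ0 hκ
    obtain ⟨h2, C, hC⟩ := h.mom κ hκ0 hκ
    refine ⟨C, fun n hn => ?_⟩
    obtain ⟨N, rfl⟩ : ∃ N, n = N + 1 := ⟨n - 1, by omega⟩
    refine ⟨h2 (N + 1) hn, ?_⟩
    rw [centres_eq, finsum_mem_coe_finset]
    simpa only [dist_eq_norm, Nat.cast_ofNat] using hC N
  · intro κ hκ0 hκ
    exact h.slim κ hκ0 hκ
  · intro X hX
    filter_upwards [h.far X hX] with n hn a ha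
    rw [dist_eq_norm]
    exact hn.1 a ha
  · intro X hX
    filter_upwards [h.far X hX] with n hn Φ M hΦ hM
    have h2 : HasDerivAt (fun t : ℂ => (g c Φ t)^[n] 0) (Pool.Agent.R240.Univ.vel 2 c Φ n) 0 :=
      Pool.Agent.R240.Univ.vel_deriv le_rfl hc hΦ n
    refine ⟨h2.differentiableAt, ?_⟩
    rw [h2.deriv]
    exact hn.2 Φ M hΦ hM
  · intro X hX
    exact h.der X hX

theorem Exponents.mono {K : ℝ} {ψ : ℂ → ℂ} {σ τ : ℝ} {c : ℂ} (hσ : 0 < σ) (hστ : σ ≤ τ)
    (h : Exponents K ψ τ c) : Exponents K ψ σ c := by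
  have hl : 0 < Real.log 2 := Real.log_pos one_lt_two
  have hX : ∀ X : ℝ, Real.log 2 / σ < X → Real.log 2 / τ < X := fun X h1 =>
    lt_of_le_of_lt (by gcongr) h1
  exact ⟨fun κ h1 h2 => h.few κ h1 (h2.trans_le hστ),
    fun κ h1 h2 => h.moments κ h1 (h2.trans_le hστ),
    fun κ h1 h2 => h.slim κ h1 (h2.trans_le hστ), fun X h1 => h.far X (hX X h1),
    fun X h1 => h.slow X (hX X h1), fun X h1 => h.growth X (hX X h1)⟩

/-- The set of exceptional infinitely renormalizable parameters. -/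
theorem dim_bad {ψ : ℂ → ℂ} (hψ : IsExteriorMap (multibrotSet 2) ψ) :
    dimH (IR \ Remote Pool.Agent.R240.Res.KR ψ) = 0 := by
  apply le_antisymm _ bot_le
  refine (dimH_mono ?_).trans (Pool.Agent.N228.DQ.dim_inf_good (d := 2) le_rfl hψ).le
  rintro c ⟨hinf, hbad⟩
  refine ⟨hinf, ?_⟩
  obtain ⟨q₀, hq₀, hq₀'⟩ := Set.Infinite.exists_gt hinf 0
  have hq1 : Pool.Agent.R240.Res.RenC 2 c q₀ := hq₀
  have hcM : c ∈ multibrotSet 2 := Pool.Agent.Y736.RN.ren_mem hq₀' hq1.ren
  by_contra hcon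
  push Not at hcon
  apply hbad
  intro σ hσ
  have h1 := hcon σ hσ 1 le_rfl (Or.inl rfl)
  rw [Nat.cast_one, mul_one] at h1
  exact exponents_of hcM h1

/-- A connected set has a point on all circles about one of its points which do not surround it. -/
theorem exists_radius {E : Set ℂ} (hE : IsPreconnected E) {c : ℂ} (hc : c ∈ E) {ρ : ℝ}
    (hρ : ¬ E ⊆ ball c ρ) {s : ℝ} (hs0 : 0 ≤ s) (hs : s ≤ ρ) : ∃ z ∈ E, dist z c = s := by
  obtain ⟨w, hw, hwρ⟩ := not_subset.1 hρ
  have h1 : IsPreconnected ((fun z => dist z c) '' E) :=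
    hE.image _ (continuous_id.dist continuous_const).continuousOn
  have h2 : s ∈ (fun z => dist z c) '' E := by
    apply h1.Icc_subset (a := 0) (b := dist w c) ⟨c, hc, dist_self c⟩ ⟨w, hw, rfl⟩
    exact ⟨hs0, hs.trans (not_lt.1 hwρ)⟩
  exact h2

theorem length_good {A E : Set ℂ} (hE : IsPreconnected E) (hA : dimH (E \ A) = 0) {c : ℂ}
    (hc : c ∈ E) {ρ : ℝ} (hρ : ¬ E ⊆ ball c ρ) :
    ENNReal.ofReal ρ ≤ μH[1] (E ∩ A ∩ ball c ρ) := by
  have hL : LipschitzWith 1 (fun z : ℂ => dist z c) := LipschitzWith.dist_left c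
  have h1 : μH[1] (E \ A) = 0 := by
    apply Pool.Agent.N228.DQ.null_dim zero_le_one
    rw [hA]
    simp
  have h2 := hL.hausdorffMeasure_image_le (d := 1) zero_le_one (E \ A)
  rw [h1, mul_zero, nonpos_iff_eq_zero] at h2
  have h3 := hL.hausdorffMeasure_image_le (d := 1) zero_le_one (E ∩ A ∩ ball c ρ)
  rw [ENNReal.coe_one, ENNReal.one_rpow, one_mul] at h3
  refine le_trans ?_ h3
  have h4 : Ico 0 ρ ⊆ ((fun z : ℂ => dist z c) '' (E ∩ A ∩ ball c ρ)) ∪
      ((fun z : ℂ => dist z c) '' (E \ A)) := by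
    rintro s ⟨hs0, hs⟩
    obtain ⟨z, hz, hzs⟩ := exists_radius hE hc hρ hs0 hs.le
    by_cases hzA : z ∈ A
    · exact Or.inl ⟨z, ⟨⟨hz, hzA⟩, by rw [mem_ball, hzs]; exact hs⟩, hzs⟩
    · exact Or.inr ⟨z, ⟨hz, hzA⟩, hzs⟩
  calc ENNReal.ofReal ρ = μH[1] (Ico 0 ρ) := by
        rw [hausdorffMeasure_real, Real.volume_Ico, sub_zero]
    _ ≤ μH[1] (((fun z : ℂ => dist z c) '' (E ∩ A ∩ ball c ρ)) ∪
      ((fun z : ℂ => dist z c) '' (E \ A))) := measure_mono h4
    _ ≤ _ := (measure_union_le _ _).trans (by rw [h2, add_zero])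

/-- **Hyperbolicity is rare near infinitely renormalizable parameters, at all scales**, outside a set
of dimension zero; total disconnectedness and measure zero are decided at these points. -/
theorem result :
    (∃ ψ : ℂ → ℂ, IsExteriorMap (multibrotSet 2) ψ) ∧
    (∀ n : ℕ, 1 ≤ n → (centres n).Finite) ∧
    ∃ K : ℝ, 0 < K ∧ ∀ ψ : ℂ → ℂ, IsExteriorMap (multibrotSet 2) ψ →
      -- (1) infinitely renormalizable parameters
      dimH (IR \ Remote K ψ) = 0 ∧
      -- (2) finitely renormalizable ones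
      (∀ (q : ℕ) (s : ℝ), 1 ≤ q → 0 < s →
        μH[s] {c | Renormalizable c q ∧ ¬ Exponents K ψ (s * q) c} = 0) ∧
      -- (3) connected sets of infinitely renormalizable parameters
      (∀ E ⊆ IR, IsPreconnected E → ∀ c ∈ E, ∀ ρ : ℝ, 0 < ρ → ¬ E ⊆ ball c ρ →
        ENNReal.ofReal ρ ≤ μH[1] (E ∩ Remote K ψ ∩ ball c ρ) ∧ dimH (E \ Remote K ψ) = 0) ∧
      (∀ p : ℂ, dimH {s : ℝ | ∃ c ∈ IR \ Remote K ψ, dist c p = s} = 0) ∧
      -- (4) total disconnectedness
      (IsTotallyDisconnected IR ↔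
        ∀ c ∈ IR ∩ Remote K ψ, connectedComponentIn IR c = {c}) ∧
      -- (5) measure zero
      (volume IR = 0 ↔ volume (IR ∩ Remote K ψ) = 0) := by
  obtain ⟨β, hβ⟩ := exists_beta (d := 2) le_rfl
  refine ⟨⟨_, exteriorMap_of_beta hβ⟩, ?_, Pool.Agent.R240.Res.KR, Pool.Agent.R240.Res.KR_pos, ?_⟩
  · intro n hn
    obtain ⟨N, rfl⟩ : ∃ N, n = N + 1 := ⟨n - 1, by omega⟩
    rw [centres_eq]
    exact (Pool.Agent.R240.LL.ZZ 2 N).finite_toSet
  intro ψ hψ
  have hbad := dim_bad hψ
  have hE0 : ∀ E ⊆ IR, dimH (E \ Remote Pool.Agent.R240.Res.KR ψ) = 0 := by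
    intro E hE
    apply le_antisymm _ bot_le
    exact (dimH_mono (sdiff_subset_sdiff_left hE)).trans hbad.le
  refine ⟨hbad, ?_, ?_, ?_, ?_, ?_⟩
  · intro q s hq hs
    refine measure_mono_null ?_ (Pool.Agent.N228.DQ.ae_good (d := 2) le_rfl hψ hs)
    rintro c ⟨hren, hng⟩ h
    have hq1 : Pool.Agent.R240.Res.RenC 2 c q := hren
    have hcM : c ∈ multibrotSet 2 := Pool.Agent.Y736.RN.ren_mem (by omega) hq1.ren
    exact hng (exponents_of hcM (h hcM q hq (Or.inr hq1)))
  · intro E hE hEc c hc ρ hρ0 hρ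
    exact ⟨length_good hEc (hE0 E hE) hc hρ, hE0 E hE⟩
  · intro p
    have hL : LipschitzWith 1 (fun z : ℂ => dist z p) := LipschitzWith.dist_left p
    apply le_antisymm _ bot_le
    exact (hL.dimH_image_le (IR \ Remote Pool.Agent.R240.Res.KR ψ)).trans hbad.le
  · constructor
    · intro h c hc
      apply Subset.antisymm
      · intro z hz
        exact h _ (connectedComponentIn_subset _ _) isPreconnected_connectedComponentIn hz
          (mem_connectedComponentIn hc.1)
      · rw [singleton_subset_iff]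
        exact mem_connectedComponentIn hc.1
    · intro h E hE hEc x hx y hy
      by_contra hxy
      have hd : 0 < dist y x := dist_pos.2 (Ne.symm hxy)
      have hρ : ¬ E ⊆ ball x (dist y x) := by
        intro h1
        exact lt_irrefl _ (mem_ball.1 (h1 hy))
      have h2 := length_good hEc (hE0 E hE) hx hρ
      have h3 : (E ∩ Remote Pool.Agent.R240.Res.KR ψ ∩ ball x (dist y x)).Nonempty := by
        by_contra h4
        rw [not_nonempty_iff_eq_empty] at h4
        rw [h4, measure_empty, nonpos_iff_eq_zero, ENNReal.ofReal_eq_zero] at h2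
        linarith
      obtain ⟨c, ⟨hcE, hcI⟩, -⟩ := h3
      have h5 := h c ⟨hE hcE, hcI⟩
      have h6 : E ⊆ connectedComponentIn IR c := hEc.subset_connectedComponentIn hcE hE
      rw [h5] at h6
      exact hxy ((h6 hx).trans (h6 hy).symm)
  · constructor
    · exact fun h => measure_mono_null inter_subset_left h
    · intro h
      have h1 : volume (IR \ Remote Pool.Agent.R240.Res.KR ψ) = 0 :=
        Pool.Agent.Y736.RN.volume_zero_of_dimH (by rw [hbad]; norm_num)
      have h2 : IR ⊆ (IR ∩ Remote Pool.Agent.R240.Res.KR ψ) ∪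
          (IR \ Remote Pool.Agent.R240.Res.KR ψ) := by
        rw [inter_union_sdiff]
      exact measure_mono_null h2 (measure_union_null h h1)

end Pool.Agent.Results.MP_b511e9_an.RareHyperbolicity
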