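import Mathlib
import Pool.Prelude.Def_F_c31e40fa
import Pool.Agent.N253.UX.Fin

/-!
# Small copies near almost every boundary point of the Mandelbrot set

Let `c₀` be a point of the Multibrot set `M_d` (`d = 2`: the Mandelbrot set) at which the critical
value has a Lyapunov exponent `χ > 0`; almost every external ray lands at such a point, with
`χ = log d`. Put `E = d / (d - 1)`, which is `2` for the Mandelbrot set. For every `ε > 0` there is a
period `p₀` such that for all small `R`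

* every connected set of parameters which are renormalizable of a period at least `p₀` (the period may
  depend on the parameter), in particular every small copy of `M_d` of period at least `p₀`, has
  diameter at most `R ^ (E - ε)` if it meets the disc `D(c₀, R)`;
* all these parameters in `D(c₀, R)`, in particular all infinitely renormalizable parameters, are in the
  union of pairwise disjoint open sets of diameter at most `R ^ (E - ε)`.

Method. (a) A connected set of parameters in `D(c₀, R)` whose critical orbits enter the disc of radius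
`R ^ τ` about the critical point, `τ < 1 / (d - 1)`, has diameter at most `R ^ (1 + τ - ε)`: the
entries are followed backwards, with expansion in the dynamical planes of all parameters of
`D(c₀, R)` (`Pool.Agent.N253.EC`). (b) For the other parameters `c` of `M_d ∩ D(c₀, R)` there is
expansion along all escaping orbits at an exponential rate `η` which does not depend on `c` and `R`
(`Pool.Agent.N253.UX`): orbits which pass very near the critical point follow the critical orbit of
`c`, which is expanding. (c) Such parameters are not renormalizable of any period `p > log d / η`: the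
dimension of the filled Julia set of the renormalization would be less than one
(`Pool.Agent.N253.NR`, `Pool.Agent.N253.UX.Ren`).
-/

set_option autoImplicit false

open MeasureTheory Filter Metric Topology

namespace Pool.Agent.Results.MP_b511e9_an.SmallCopies

open Pool.Agent.H713R2 (IsExteriorMap)

/-- The polynomial `z ^ d + c`. -/
def f (d : ℕ) (c : ℂ) : ℂ → ℂ := fun z => z ^ d + c

/-- `c₀` is in the Multibrot set and the critical value `c₀` has the Lyapunov exponent `χ > 0`. -/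
def HasLyapunov (d : ℕ) (χ : ℝ) (c₀ : ℂ) : Prop :=
  0 < χ ∧ c₀ ∈ N62a1eb23.multibrotSet d ∧
    Tendsto (fun n : ℕ => Real.log ‖deriv ((f d c₀)^[n]) c₀‖ / n) atTop (𝓝 χ)

/-- The ray of angle `θ` lands at `c`. -/
def Lands (ψ : ℂ → ℂ) (θ : ℝ) (c : ℂ) : Prop :=
  Tendsto (fun r : ℝ => ψ (r * Complex.exp (θ * Complex.I))) (𝓝[>] 1) (𝓝 c)

/-- `h` is proper of degree at most `d` from the bounded open set `U` onto a set which contains the
closure of `U`. Polynomial-like maps of degree `d` have this property. -/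
def PolynomialLike (d : ℕ) (h : ℂ → ℂ) (U : Set ℂ) : Prop :=
  IsOpen U ∧ Bornology.IsBounded U ∧ closure U ⊆ h '' U ∧
    (∀ K ⊆ h '' U, IsCompact K → IsCompact {z | z ∈ U ∧ h z ∈ K}) ∧
    ∀ w ∈ h '' U, {z | z ∈ U ∧ h z = w}.encard ≤ d

/-- The filled Julia set of the restriction of `h` to `U`. -/
def filled (h : ℂ → ℂ) (U : Set ℂ) : Set ℂ := {z | ∀ i : ℕ, h^[i] z ∈ U}

/-- `z ^ d + c` is renormalizable of period `p`: a restriction of the iterate of order `p` is
polynomial-like of degree at most `d`, and its filled Julia set is connected and contains the critical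
point (for `p = 1` this is so for all `c` in the Multibrot set). -/
def Renormalizable (d : ℕ) (c : ℂ) (p : ℕ) : Prop :=
  ∃ U : Set ℂ, PolynomialLike d ((f d c)^[p]) U ∧ (0 : ℂ) ∈ filled ((f d c)^[p]) U ∧
    IsConnected (filled ((f d c)^[p]) U)

/-- The parameters which are renormalizable of some period at least `p₀`. It contains the small copies
of the Multibrot set of period at least `p₀` and all infinitely renormalizable parameters. -/
def LargePeriod (d p₀ : ℕ) : Set ℂ := {c | ∃ p : ℕ, p₀ ≤ p ∧ Renormalizable d c p}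

/-- Near `c₀` the renormalizable parameters of large period are in small pieces. -/
def SmallNear (d : ℕ) (c₀ : ℂ) : Prop :=
  ∀ ε : ℝ, 0 < ε → ∃ (p₀ : ℕ) (R₀ : ℝ), 1 ≤ p₀ ∧ 0 < R₀ ∧ ∀ R : ℝ, 0 < R → R ≤ R₀ →
    -- connected sets of renormalizable parameters, for instance small copies
    (∀ Γ ⊆ LargePeriod d p₀, IsPreconnected Γ → (Γ ∩ closedBall c₀ R).Nonempty →
      ∀ c ∈ Γ, ∀ c' ∈ Γ, ‖c - c'‖ ≤ R ^ ((d : ℝ) / (d - 1) - ε)) ∧
    -- separation by disjoint small open sets
    ∃ 𝒲 : Set (Set ℂ), 𝒲.PairwiseDisjoint id ∧ LargePeriod d p₀ ∩ ball c₀ R ⊆ ⋃₀ 𝒲 ∧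
      ∀ W ∈ 𝒲, IsOpen W ∧ ∀ c ∈ W, ∀ c' ∈ W, ‖c - c'‖ ≤ R ^ ((d : ℝ) / (d - 1) - ε)

theorem filled_eq (d : ℕ) (c : ℂ) (p : ℕ) (U : Set ℂ) :
    filled ((f d c)^[p]) U = N253.NR.TR d c p U := by
  ext z
  unfold filled N253.NR.TR
  simp only [Set.mem_setOf_eq]
  refine forall_congr' fun i => ?_
  rw [← Function.iterate_mul]
  exact Iff.rfl

theorem renC_of {d : ℕ} {c : ℂ} {p : ℕ} (h : Renormalizable d c p) : N253.NR.RenC d c p := by
  obtain ⟨U, h1, h2, h3⟩ := h
  rw [filled_eq] at h2 h3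
  exact ⟨U, h1, h2, h3.isPreconnected⟩

theorem mem_of_large {d : ℕ} {c : ℂ} {p₀ : ℕ} (hp₀ : 1 ≤ p₀) (h : c ∈ LargePeriod d p₀) :
    c ∈ N62a1eb23.multibrotSet d ∧ ∃ p : ℕ, p₀ ≤ p ∧ N253.NR.RenC d c p := by
  obtain ⟨p, hp, hr⟩ := h
  refine ⟨?_, p, hp, renC_of hr⟩
  obtain ⟨U, h1, h2, -⟩ := hr
  rw [filled_eq] at h2
  exact N253.NR.TR_KK (hp₀.trans hp) h1.2.1 h2

theorem near {d : ℕ} (hd : 2 ≤ d) {χ : ℝ} {c₀ : ℂ} (h : HasLyapunov d χ c₀) : SmallNear d c₀ := by
  intro ε hε
  have hL : Pool.Agent.Y298.CA.Lyap d χ c₀ := ⟨h.1, h.2.1, h.2.2⟩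
  obtain ⟨p₀, R₀, hp₀, hR₀, H⟩ := N253.UX.ren_sets hd hL hε
  refine ⟨p₀, R₀, hp₀, hR₀, fun R hR hRR => ?_⟩
  obtain ⟨H1, 𝒲, W1, W2, W3⟩ := H R hR hRR
  constructor
  · rintro Γ hΓ hpre ⟨c₁, hc₁, hc₁R⟩ c hc c' hc'
    rw [mem_closedBall, dist_eq_norm] at hc₁R
    have H2 := H1 Γ hpre (fun t ht => mem_of_large hp₀ (hΓ ht)) c₁ hc₁ hc₁R
    have h3 := norm_sub_le (c - c₁) (c' - c₁)
    rw [sub_sub_sub_cancel_right] at h3
    linarith [H2 c hc, H2 c' hc']
  · refine ⟨𝒲, W2, ?_, W1⟩
    rintro t ⟨ht, htR⟩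
    rw [mem_ball, dist_eq_norm] at htR
    obtain ⟨h1, h2⟩ := mem_of_large hp₀ ht
    obtain ⟨W, hW, htW⟩ := W3 t h1 htR h2
    exact ⟨W, hW, htW⟩

theorem result (d : ℕ) (hd : 2 ≤ d) :
    -- parameters with a positive Lyapunov exponent at the critical value
    (∀ (χ : ℝ) (c₀ : ℂ), HasLyapunov d χ c₀ → SmallNear d c₀) ∧
    -- almost every external ray lands at such a parameter, and the exponent is `log d`
    (∃ ψ : ℂ → ℂ, IsExteriorMap (N62a1eb23.multibrotSet d) ψ) ∧
    ∀ ψ : ℂ → ℂ, IsExteriorMap (N62a1eb23.multibrotSet d) ψ →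
      ∀ᵐ θ : ℝ, ∃ c₀ ∈ frontier (N62a1eb23.multibrotSet d),
        Lands ψ θ c₀ ∧ HasLyapunov d (Real.log d) c₀ ∧ SmallNear d c₀ := by
  obtain ⟨β, hβ⟩ := Pool.Agent.H713R2.exists_beta (d := d) hd
  refine ⟨fun χ c₀ h => near hd h, ⟨_, Pool.Agent.H713R2.exteriorMap_of_beta hβ⟩, ?_⟩
  intro ψ hψ
  filter_upwards [Pool.Agent.Y272.TY.ae_neg' (Pool.Agent.Y272.TY.typical_all hd hβ)] with θ hθ
  obtain ⟨c₀, A, R, h⟩ := hθ
  obtain ⟨h1, h2, h3⟩ := Pool.Agent.Y298.CA.lyap_of_typ hd hβ h
  exact ⟨c₀, h.frontier hd hβ, h.tendsto_psi hβ hψ, ⟨h1, h2, h3⟩, near hd ⟨h1, h2, h3⟩⟩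

end Pool.Agent.Results.MP_b511e9_an.SmallCopies
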